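import Pool.Agent.MP_2ef9c7_co.H88.Main

/-! Some b-parking-function polytope of length at least 3 has a negative magic coefficient. -/

open Pool.Agent.MP_2ef9c7_co.H88

theorem Pool.Agent.Results.MP_2ef9c7_co.NotMagic.result :
    ∃ (n : ℕ) (b : Fin n → ℕ), 3 ≤ n ∧ (∀ i, 0 < b i) ∧ ∃ μ : ℕ → ℚ,
      (∀ t : ℕ, (ehr (parkingPolytope b) t : ℚ) =
        ∑ i ∈ Finset.range (dim (parkingPolytope b) + 1),
          μ i * (t : ℚ) ^ i * ((t : ℚ) + 1) ^ (dim (parkingPolytope b) - i)) ∧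
      ∃ i ≤ dim (parkingPolytope b), μ i < 0 := by
  obtain ⟨N, h⟩ := main
  refine ⟨17, bb N, by norm_num, fun i => ?_, ?_⟩
  · simp only [bb]; split_ifs <;> omega
  · rw [dim_bb]
    exact h N le_rfl
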